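import Mathlib

/-!
# Expectations over random subsets

`Esub M q f` is the expectation of `f S` when each `i ∈ M` is put in `S` independently with
probability `q i`.
-/

namespace Pool.Agent.RKotH

open Finset

variable {ι : Type*} [DecidableEq ι]

/-- expectation of `f S`, `S ⊆ M` random, `i ∈ S` with probability `q i` independently -/
noncomputable def Esub (M : Finset ι) (q : ι → ℝ) (f : Finset ι → ℝ) : ℝ :=
  ∑ S ∈ M.powerset, (∏ i ∈ S, q i) * (∏ i ∈ M \ S, (1 - q i)) * f S

lemma Esub_empty (q : ι → ℝ) (f : Finset ι → ℝ) : Esub ∅ q f = f ∅ := by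
  simp [Esub]

lemma Esub_insert {M : Finset ι} {k : ι} (hk : k ∉ M) (q : ι → ℝ) (f : Finset ι → ℝ) :
    Esub (insert k M) q f =
      q k * Esub M q (fun S => f (insert k S)) + (1 - q k) * Esub M q f := by
  unfold Esub
  rw [Finset.sum_powerset_insert hk]
  rw [add_comm, Finset.mul_sum, Finset.mul_sum]
  congr 1
  · refine Finset.sum_congr rfl fun S hS => ?_
    have hS' : S ⊆ M := Finset.mem_powerset.1 hS
    have hkS : k ∉ S := fun h => hk (hS' h)
    rw [Finset.prod_insert hkS]
    have : insert k M \ insert k S = M \ S := by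
      ext a
      simp only [mem_sdiff, mem_insert, not_or]
      constructor
      · rintro ⟨h1 | h1, h2, h3⟩
        · exact absurd h1 h2
        · exact ⟨h1, h3⟩
      · rintro ⟨h1, h2⟩
        exact ⟨Or.inr h1, fun h => hk (h ▸ h1), h2⟩
    rw [this]
    ring
  · refine Finset.sum_congr rfl fun S hS => ?_
    have hS' : S ⊆ M := Finset.mem_powerset.1 hS
    have hkS : k ∉ S := fun h => hk (hS' h)
    rw [Finset.insert_sdiff_of_notMem _ hkS, Finset.prod_insert (fun h => hk (mem_sdiff.1 h).1)]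
    ring

lemma Esub_congr {M : Finset ι} {q q' : ι → ℝ} {f f' : Finset ι → ℝ}
    (hq : ∀ i ∈ M, q i = q' i) (hf : ∀ S ⊆ M, f S = f' S) : Esub M q f = Esub M q' f' := by
  unfold Esub
  refine Finset.sum_congr rfl fun S hS => ?_
  have hS' : S ⊆ M := Finset.mem_powerset.1 hS
  have h1 : ∏ i ∈ S, q i = ∏ i ∈ S, q' i := Finset.prod_congr rfl (fun i hi => hq i (hS' hi))
  have h2 : ∏ i ∈ M \ S, (1 - q i) = ∏ i ∈ M \ S, (1 - q' i) :=
    Finset.prod_congr rfl (fun i hi => by rw [hq i (mem_sdiff.1 hi).1])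
  rw [hf S hS', h1, h2]

lemma Esub_add (M : Finset ι) (q : ι → ℝ) (f f' : Finset ι → ℝ) :
    Esub M q (fun S => f S + f' S) = Esub M q f + Esub M q f' := by
  unfold Esub
  rw [← Finset.sum_add_distrib]
  exact Finset.sum_congr rfl fun S _ => by ring

lemma Esub_sub (M : Finset ι) (q : ι → ℝ) (f f' : Finset ι → ℝ) :
    Esub M q (fun S => f S - f' S) = Esub M q f - Esub M q f' := by
  unfold Esub
  rw [← Finset.sum_sub_distrib]
  exact Finset.sum_congr rfl fun S _ => by ring

lemma Esub_mul (M : Finset ι) (q : ι → ℝ) (c : ℝ) (f : Finset ι → ℝ) :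
    Esub M q (fun S => c * f S) = c * Esub M q f := by
  unfold Esub
  rw [Finset.mul_sum]
  exact Finset.sum_congr rfl fun S _ => by ring

lemma Esub_prod (M : Finset ι) (q x : ι → ℝ) :
    Esub M q (fun S => ∏ i ∈ S, x i) = ∏ i ∈ M, (q i * x i + (1 - q i)) := by
  unfold Esub
  rw [Finset.prod_add]
  refine Finset.sum_congr rfl fun S _ => ?_
  rw [Finset.prod_mul_distrib]
  ring

lemma Esub_one (M : Finset ι) (q : ι → ℝ) : Esub M q (fun _ => 1) = 1 := by
  have := Esub_prod M q (fun _ => 1)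
  simpa using this

lemma Esub_const (M : Finset ι) (q : ι → ℝ) (c : ℝ) : Esub M q (fun _ => c) = c := by
  have h := Esub_mul M q c (fun _ => 1)
  simpa [Esub_one] using h

lemma Esub_mono {M : Finset ι} {q : ι → ℝ} {f f' : Finset ι → ℝ}
    (hq0 : ∀ i ∈ M, 0 ≤ q i) (hq1 : ∀ i ∈ M, q i ≤ 1) (hf : ∀ S ⊆ M, f S ≤ f' S) :
    Esub M q f ≤ Esub M q f' := by
  unfold Esub
  refine Finset.sum_le_sum fun S hS => ?_
  have hS' : S ⊆ M := Finset.mem_powerset.1 hS
  refine mul_le_mul_of_nonneg_left (hf S hS') ?_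
  refine mul_nonneg (Finset.prod_nonneg fun i hi => hq0 i (hS' hi))
    (Finset.prod_nonneg fun i hi => sub_nonneg.2 (hq1 i (mem_sdiff.1 hi).1))

lemma Esub_abs_le {M : Finset ι} {q : ι → ℝ} {f f' : Finset ι → ℝ}
    (hq0 : ∀ i ∈ M, 0 ≤ q i) (hq1 : ∀ i ∈ M, q i ≤ 1) (hf : ∀ S ⊆ M, |f S| ≤ f' S) :
    |Esub M q f| ≤ Esub M q f' := by
  rw [abs_le]
  constructor
  · have h : Esub M q (fun S => (-1) * f' S) ≤ Esub M q f :=
      Esub_mono hq0 hq1 fun S hS => by
        have := (abs_le.1 (hf S hS)).1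
        linarith
    rw [Esub_mul] at h
    linarith
  · exact Esub_mono hq0 hq1 fun S hS => (abs_le.1 (hf S hS)).2

/-- the expectation of the indicator of the empty set -/
lemma Esub_ind_empty (M : Finset ι) (q : ι → ℝ) (c : ℝ) :
    Esub M q (fun S => if S = ∅ then c else 0) = c * ∏ i ∈ M, (1 - q i) := by
  unfold Esub
  rw [Finset.sum_eq_single ∅]
  · simp [mul_comm]
  · intro S _ hS
    simp [hS]
  · intro h
    exact absurd (Finset.empty_mem_powerset M) h

/-- `Esub` is affine in each probability -/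
lemma Esub_update {M : Finset ι} {k : ι} (q : ι → ℝ) (f : Finset ι → ℝ) (t : ℝ) :
    Esub M (Function.update q k t) f =
      (1 - t) * Esub M (Function.update q k 0) f + t * Esub M (Function.update q k 1) f := by
  by_cases hk : k ∈ M
  · obtain ⟨M', hM', rfl⟩ : ∃ M', k ∉ M' ∧ insert k M' = M :=
      ⟨M.erase k, Finset.notMem_erase k M, Finset.insert_erase hk⟩
    have key : ∀ (s : ℝ) (f : Finset ι → ℝ), Esub M' (Function.update q k s) f = Esub M' q f := by
      intro s f
      refine Esub_congr (fun i hi => ?_) (fun _ _ => rfl)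
      rw [Function.update_of_ne]
      rintro rfl
      exact hM' hi
    rw [Esub_insert hM', Esub_insert hM', Esub_insert hM']
    simp only [key, Function.update_self]
    ring
  · have key : ∀ (s : ℝ), Esub M (Function.update q k s) f = Esub M q f := by
      intro s
      refine Esub_congr (fun i hi => ?_) (fun _ _ => rfl)
      rw [Function.update_of_ne]
      rintro rfl
      exact hk hi
    rw [key, key, key]
    ring

end Pool.Agent.RKotH
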