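import Pool.Agent.RKotH.Esub

/-!
# The winning probability of a team and its increments
-/

namespace Pool.Agent.RKotH

open Finset

variable {ι : Type*} [DecidableEq ι]

/-- The probability that a distinguished team wins King of the Hill against the teams of `S`,
when it beats `w ∈ S` with probability `x w` and `t` beats `w` with probability `z t w`. -/
noncomputable def gw (x : ι → ℝ) (z : ι → ι → ℝ) (S : Finset ι) : ℝ :=
  (∏ i ∈ S, x i + ∑ w ∈ S.attach, x w.1 * ∑ S' ∈ ((S.erase w.1).powerset).attach,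
    (∏ i ∈ S'.1, z i w.1) * (∏ i ∈ (S.erase w.1) \ S'.1, (1 - z i w.1)) * gw x z S'.1) /
    (S.card + 1)
termination_by S.card
decreasing_by
  have h1 : S'.1 ⊆ S.erase w.1 := Finset.mem_powerset.1 S'.2
  exact lt_of_le_of_lt (Finset.card_le_card h1) (Finset.card_erase_lt_of_mem w.2)

lemma gw_eq (x : ι → ℝ) (z : ι → ι → ℝ) (S : Finset ι) :
    ((S.card : ℝ) + 1) * gw x z S =
      ∏ i ∈ S, x i + ∑ w ∈ S, x w * Esub (S.erase w) (fun t => z t w) (gw x z) := by
  rw [gw]
  have h : ((S.card : ℝ) + 1) ≠ 0 := by positivity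
  rw [mul_div_cancel₀ _ h]
  congr 1
  rw [← Finset.sum_attach S]
  refine Finset.sum_congr rfl fun w _ => ?_
  congr 1
  unfold Esub
  rw [← Finset.sum_attach (S.erase w.1).powerset]

lemma gw_congr {x x' : ι → ℝ} (z : ι → ι → ℝ) {S : Finset ι} (h : ∀ i ∈ S, x i = x' i) :
    gw x z S = gw x' z S := by
  induction S using Finset.strongInduction with
  | H S ih =>
    have h0 : ((S.card : ℝ) + 1) ≠ 0 := by positivity
    apply mul_left_cancel₀ h0
    rw [gw_eq, gw_eq, Finset.prod_congr rfl h]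
    congr 1
    refine Finset.sum_congr rfl fun w hw => ?_
    rw [h w hw]
    congr 1
    refine Esub_congr (fun _ _ => rfl) fun S' hS' => ?_
    have hlt : S' ⊂ S := lt_of_le_of_lt hS' (Finset.erase_ssubset hw)
    exact ih S' hlt fun i hi => h i (hlt.1 hi)

lemma gw_empty (x : ι → ℝ) (z : ι → ι → ℝ) : gw x z ∅ = 1 := by
  have := gw_eq x z ∅
  simpa using this

lemma gw_singleton (x : ι → ℝ) (z : ι → ι → ℝ) (w : ι) : gw x z {w} = x w := by
  have := gw_eq x z {w}
  simp [Esub_empty, gw_empty] at this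
  linarith

/-- `gw` is affine in each winning probability of the distinguished team -/
lemma gw_update (x : ι → ℝ) (z : ι → ι → ℝ) (k : ι) (t : ℝ) (S : Finset ι) :
    gw (Function.update x k t) z S =
      (1 - t) * gw (Function.update x k 0) z S + t * gw (Function.update x k 1) z S := by
  induction S using Finset.strongInduction with
  | H S ih =>
    have h0 : ((S.card : ℝ) + 1) ≠ 0 := by positivity
    apply mul_left_cancel₀ h0
    have e : ((S.card : ℝ) + 1) * ((1 - t) * gw (Function.update x k 0) z S +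
        t * gw (Function.update x k 1) z S) =
        (1 - t) * (((S.card : ℝ) + 1) * gw (Function.update x k 0) z S) +
        t * (((S.card : ℝ) + 1) * gw (Function.update x k 1) z S) := by ring
    rw [e, gw_eq, gw_eq, gw_eq]
    have hp : ∏ i ∈ S, Function.update x k t i =
        (1 - t) * ∏ i ∈ S, Function.update x k 0 i + t * ∏ i ∈ S, Function.update x k 1 i := by
      by_cases hk : k ∈ S
      · rw [← Finset.mul_prod_erase _ _ hk, ← Finset.mul_prod_erase _ _ hk,
          ← Finset.mul_prod_erase _ _ hk]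
        have key : ∀ s : ℝ, ∏ i ∈ S.erase k, Function.update x k s i = ∏ i ∈ S.erase k, x i := by
          intro s
          refine Finset.prod_congr rfl fun i hi => ?_
          rw [Function.update_of_ne (Finset.ne_of_mem_erase hi)]
        simp only [key, Function.update_self]
        ring
      · have key : ∀ s : ℝ, ∏ i ∈ S, Function.update x k s i = ∏ i ∈ S, x i := by
          intro s
          refine Finset.prod_congr rfl fun i hi => ?_
          rw [Function.update_of_ne]
          rintro rfl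
          exact hk hi
        simp only [key]
        ring
    have hs : ∀ w ∈ S, Function.update x k t w *
        Esub (S.erase w) (fun t => z t w) (gw (Function.update x k t) z) =
        (1 - t) * (Function.update x k 0 w *
          Esub (S.erase w) (fun t => z t w) (gw (Function.update x k 0) z)) +
        t * (Function.update x k 1 w *
          Esub (S.erase w) (fun t => z t w) (gw (Function.update x k 1) z)) := by
      intro w hw
      by_cases hwk : w = k
      · subst hwk
        have key : ∀ s : ℝ, Esub (S.erase w) (fun t => z t w) (gw (Function.update x w s) z) =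
            Esub (S.erase w) (fun t => z t w) (gw x z) := by
          intro s
          refine Esub_congr (fun _ _ => rfl) fun S' hS' => ?_
          refine gw_congr z fun i hi => ?_
          rw [Function.update_of_ne (Finset.ne_of_mem_erase (hS' hi))]
        simp only [key, Function.update_self]
        ring
      · simp only [Function.update_of_ne hwk]
        have : Esub (S.erase w) (fun t => z t w) (gw (Function.update x k t) z) =
            Esub (S.erase w) (fun t => z t w) (fun S' =>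
              (1 - t) * gw (Function.update x k 0) z S' + t * gw (Function.update x k 1) z S') := by
          refine Esub_congr (fun _ _ => rfl) fun S' hS' => ?_
          exact ih S' (lt_of_le_of_lt hS' (Finset.erase_ssubset hw))
        rw [this, Esub_add, Esub_mul, Esub_mul]
        ring
    rw [hp, Finset.sum_congr rfl hs, Finset.sum_add_distrib, ← Finset.mul_sum, ← Finset.mul_sum]
    ring

lemma prod_anti {x : ι → ℝ} (h0 : ∀ i, 0 ≤ x i) (h1 : ∀ i, x i ≤ 1) {S' S : Finset ι}
    (h : S' ⊆ S) : ∏ i ∈ S, x i ≤ ∏ i ∈ S', x i := by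
  rw [← Finset.prod_sdiff h]
  have h2 : ∏ i ∈ S \ S', x i ≤ 1 := Finset.prod_le_one (fun i _ => h0 i) (fun i _ => h1 i)
  have h3 : 0 ≤ ∏ i ∈ S', x i := Finset.prod_nonneg fun i _ => h0 i
  nlinarith

lemma prod_le_gw {x : ι → ℝ} {z : ι → ι → ℝ} (h0 : ∀ i, 0 ≤ x i) (h1 : ∀ i, x i ≤ 1)
    (hz0 : ∀ t w, 0 ≤ z t w) (hz1 : ∀ t w, z t w ≤ 1) (S : Finset ι) :
    ∏ i ∈ S, x i ≤ gw x z S := by
  induction S using Finset.strongInduction with
  | H S ih =>
    have hpos : (0 : ℝ) < (S.card : ℝ) + 1 := by positivity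
    refine le_of_mul_le_mul_left ?_ hpos
    rw [gw_eq]
    have h2 : ∀ w ∈ S, ∏ i ∈ S, x i ≤ x w * Esub (S.erase w) (fun t => z t w) (gw x z) := by
      intro w hw
      rw [← Finset.mul_prod_erase _ _ hw]
      refine mul_le_mul_of_nonneg_left ?_ (h0 w)
      calc ∏ i ∈ S.erase w, x i = Esub (S.erase w) (fun t => z t w) (fun _ => ∏ i ∈ S.erase w, x i) :=
            (Esub_const _ _ _).symm
        _ ≤ Esub (S.erase w) (fun t => z t w) (gw x z) := by
            refine Esub_mono (fun _ _ => hz0 _ _) (fun _ _ => hz1 _ _) fun S' hS' => ?_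
            exact (prod_anti h0 h1 hS').trans
              (ih S' (lt_of_le_of_lt hS' (Finset.erase_ssubset hw)))
    have h3 := Finset.sum_le_sum h2
    rw [Finset.sum_const, nsmul_eq_mul] at h3
    linarith

lemma gw_le_one {x : ι → ℝ} {z : ι → ι → ℝ} (h0 : ∀ i, 0 ≤ x i) (h1 : ∀ i, x i ≤ 1)
    (hz0 : ∀ t w, 0 ≤ z t w) (hz1 : ∀ t w, z t w ≤ 1) (S : Finset ι) :
    gw x z S ≤ 1 := by
  induction S using Finset.strongInduction with
  | H S ih =>
    have hpos : (0 : ℝ) < (S.card : ℝ) + 1 := by positivity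
    refine le_of_mul_le_mul_left ?_ hpos
    rw [gw_eq]
    have h2 : ∀ w ∈ S, x w * Esub (S.erase w) (fun t => z t w) (gw x z) ≤ 1 := by
      intro w hw
      have h4 : Esub (S.erase w) (fun t => z t w) (gw x z) ≤ 1 := by
        calc Esub (S.erase w) (fun t => z t w) (gw x z)
            ≤ Esub (S.erase w) (fun t => z t w) (fun _ => 1) :=
              Esub_mono (fun _ _ => hz0 _ _) (fun _ _ => hz1 _ _) fun S' hS' =>
                ih S' (lt_of_le_of_lt hS' (Finset.erase_ssubset hw))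
          _ = 1 := Esub_one _ _
      have h5 := h0 w
      have h6 := h1 w
      nlinarith
    have h3 := Finset.sum_le_sum h2
    rw [Finset.sum_const, nsmul_eq_mul] at h3
    have h7 : ∏ i ∈ S, x i ≤ 1 := Finset.prod_le_one (fun i _ => h0 i) (fun i _ => h1 i)
    linarith

lemma gw_nonneg {x : ι → ℝ} {z : ι → ι → ℝ} (h0 : ∀ i, 0 ≤ x i) (h1 : ∀ i, x i ≤ 1)
    (hz0 : ∀ t w, 0 ≤ z t w) (hz1 : ∀ t w, z t w ≤ 1) (S : Finset ι) :
    0 ≤ gw x z S :=
  (Finset.prod_nonneg fun i _ => h0 i).trans (prod_le_gw h0 h1 hz0 hz1 S)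

lemma gw_le_hi {x : ι → ℝ} {z : ι → ι → ℝ} {c : ℝ} (h0 : ∀ i, 0 ≤ x i) (h1 : ∀ i, x i ≤ c)
    (hc : c ≤ 1) (hz0 : ∀ t w, 0 ≤ z t w) (hz1 : ∀ t w, z t w ≤ 1) {S : Finset ι}
    (hS : S.Nonempty) : gw x z S ≤ c := by
  have h1' : ∀ i, x i ≤ 1 := fun i => (h1 i).trans hc
  have hpos : (0 : ℝ) < (S.card : ℝ) + 1 := by positivity
  refine le_of_mul_le_mul_left ?_ hpos
  rw [gw_eq]
  obtain ⟨w₀, hw₀⟩ := hS
  have hc0 : 0 ≤ c := (h0 w₀).trans (h1 w₀)
  have h2 : ∀ w ∈ S, x w * Esub (S.erase w) (fun t => z t w) (gw x z) ≤ c := by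
    intro w hw
    have h4 : Esub (S.erase w) (fun t => z t w) (gw x z) ≤ 1 := by
      calc Esub (S.erase w) (fun t => z t w) (gw x z)
          ≤ Esub (S.erase w) (fun t => z t w) (fun _ => 1) :=
            Esub_mono (fun _ _ => hz0 _ _) (fun _ _ => hz1 _ _) fun S' hS' =>
              gw_le_one h0 h1' hz0 hz1 S'
        _ = 1 := Esub_one _ _
    have h5 := h0 w
    have h6 := h1 w
    nlinarith
  have h3 := Finset.sum_le_sum h2
  rw [Finset.sum_const, nsmul_eq_mul] at h3
  have h7 : ∏ i ∈ S, x i ≤ c := by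
    have h8 : ∏ i ∈ S, x i ≤ ∏ i ∈ {w₀}, x i :=
      prod_anti h0 h1' (Finset.singleton_subset_iff.2 hw₀)
    rw [Finset.prod_singleton] at h8
    exact h8.trans (h1 w₀)
  linarith

/-- the increment of the winning probability when a sure win is added -/
noncomputable def dl (x : ι → ℝ) (z : ι → ι → ℝ) (k : ι) (S : Finset ι) : ℝ :=
  gw (Function.update x k 1) z (insert k S) - gw x z S

lemma dl_eq (x : ι → ℝ) (z : ι → ι → ℝ) {k : ι} {S : Finset ι} (hk : k ∉ S) :
    ((S.card : ℝ) + 2) * dl x z k S = Esub S (fun t => z t k) (gw x z) - gw x z S +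
      ∑ w ∈ S, x w * z k w * Esub (S.erase w) (fun t => z t w) (dl x z k) := by
  have e1 := gw_eq (Function.update x k 1) z (insert k S)
  have e2 := gw_eq x z S
  rw [Finset.card_insert_of_notMem hk, Finset.prod_insert hk, Finset.sum_insert hk,
    Function.update_self, Finset.erase_insert hk] at e1
  have hup : ∀ S' : Finset ι, k ∉ S' → gw (Function.update x k 1) z S' = gw x z S' := by
    intro S' hS'
    refine gw_congr z fun i hi => ?_
    rw [Function.update_of_ne]
    rintro rfl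
    exact hS' hi
  have hpr : ∏ i ∈ S, Function.update x k 1 i = ∏ i ∈ S, x i := by
    refine Finset.prod_congr rfl fun i hi => ?_
    rw [Function.update_of_ne]
    rintro rfl
    exact hk hi
  have hE : Esub S (fun t => z t k) (gw (Function.update x k 1) z) =
      Esub S (fun t => z t k) (gw x z) :=
    Esub_congr (fun _ _ => rfl) fun S' hS' => hup S' fun h => hk (hS' h)
  have hsum : ∑ w ∈ S, Function.update x k 1 w *
      Esub ((insert k S).erase w) (fun t => z t w) (gw (Function.update x k 1) z) =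
      ∑ w ∈ S, x w * Esub (S.erase w) (fun t => z t w) (gw x z) +
      ∑ w ∈ S, x w * z k w * Esub (S.erase w) (fun t => z t w) (dl x z k) := by
    rw [← Finset.sum_add_distrib]
    refine Finset.sum_congr rfl fun w hw => ?_
    have hwk : w ≠ k := by
      rintro rfl
      exact hk hw
    have hk' : k ∉ S.erase w := fun h => hk (Finset.mem_of_mem_erase h)
    rw [Function.update_of_ne hwk, Finset.erase_insert_of_ne hwk.symm, Esub_insert hk']
    have h1 : Esub (S.erase w) (fun t => z t w)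
        (fun S' => gw (Function.update x k 1) z (insert k S')) =
        Esub (S.erase w) (fun t => z t w) (dl x z k) +
        Esub (S.erase w) (fun t => z t w) (gw x z) := by
      rw [← Esub_add]
      refine Esub_congr (fun _ _ => rfl) fun S' hS' => ?_
      unfold dl
      ring
    have h2 : Esub (S.erase w) (fun t => z t w) (gw (Function.update x k 1) z) =
        Esub (S.erase w) (fun t => z t w) (gw x z) :=
      Esub_congr (fun _ _ => rfl) fun S' hS' => hup S' fun h => hk' (hS' h)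
    rw [h1, h2]
    ring
  rw [hpr, hE, hsum] at e1
  unfold dl at *
  push_cast at e1 ⊢
  linarith

lemma dl_empty (x : ι → ℝ) (z : ι → ι → ℝ) (k : ι) : dl x z k ∅ = 0 := by
  have := dl_eq x z (Finset.notMem_empty k)
  simp [Esub_empty] at this
  linarith

lemma one_sub_prod_le {x : ι → ℝ} (h0 : ∀ i, 0 ≤ x i) (h1 : ∀ i, x i ≤ 1) (S : Finset ι) :
    1 - ∏ i ∈ S, x i ≤ ∑ i ∈ S, (1 - x i) := by
  induction S using Finset.induction_on with
  | empty => simp
  | insert a S ha ih =>
    rw [Finset.prod_insert ha, Finset.sum_insert ha]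
    have h2 : ∏ i ∈ S, x i ≤ 1 := Finset.prod_le_one (fun i _ => h0 i) (fun i _ => h1 i)
    have h3 := h0 a
    have h4 := h1 a
    nlinarith

/-- the main step in the bound of the increments -/
lemma sum_step {x : ι → ℝ} {z : ι → ι → ℝ} {c ζ : ℝ} {k : ι} (h0 : ∀ i, 0 ≤ x i)
    (h1 : ∀ i, x i ≤ 1) (hz0 : ∀ t w, 0 ≤ z t w) (hz1 : ∀ t w, z t w ≤ 1) (hζ : ∀ t w, z t w ≤ ζ)
    (hc : 0 ≤ c) {S : Finset ι}
    (ih : ∀ S' ⊂ S, |dl x z k S'| ≤ c * (1 - ∏ i ∈ S', x i)) :
    |∑ w ∈ S, x w * z k w * Esub (S.erase w) (fun t => z t w) (dl x z k)| ≤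
      ζ * c * ((S.card : ℝ) - 1) * (1 - ∏ i ∈ S, x i) := by
  have hterm : ∀ w ∈ S, |x w * z k w * Esub (S.erase w) (fun t => z t w) (dl x z k)| ≤
      ζ * c * (x w - ∏ i ∈ S, x i) := by
    intro w hw
    rw [abs_mul, abs_mul, abs_of_nonneg (h0 w), abs_of_nonneg (hz0 k w)]
    have h2 : |Esub (S.erase w) (fun t => z t w) (dl x z k)| ≤
        c * (1 - ∏ i ∈ S.erase w, x i) := by
      calc |Esub (S.erase w) (fun t => z t w) (dl x z k)|
          ≤ Esub (S.erase w) (fun t => z t w) (fun _ => c * (1 - ∏ i ∈ S.erase w, x i)) := by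
            refine Esub_abs_le (fun _ _ => hz0 _ _) (fun _ _ => hz1 _ _) fun S' hS' => ?_
            refine (ih S' (lt_of_le_of_lt hS' (Finset.erase_ssubset hw))).trans ?_
            refine mul_le_mul_of_nonneg_left ?_ hc
            linarith [prod_anti h0 h1 hS']
        _ = _ := Esub_const _ _ _
    have h3 : x w * (∏ i ∈ S.erase w, x i) = ∏ i ∈ S, x i := Finset.mul_prod_erase _ _ hw
    have h4 : 0 ≤ c * (1 - ∏ i ∈ S.erase w, x i) := (abs_nonneg _).trans h2
    calc x w * z k w * |Esub (S.erase w) (fun t => z t w) (dl x z k)|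
        ≤ x w * z k w * (c * (1 - ∏ i ∈ S.erase w, x i)) :=
          mul_le_mul_of_nonneg_left h2 (mul_nonneg (h0 w) (hz0 k w))
      _ ≤ x w * ζ * (c * (1 - ∏ i ∈ S.erase w, x i)) :=
          mul_le_mul_of_nonneg_right (mul_le_mul_of_nonneg_left (hζ k w) (h0 w)) h4
      _ = ζ * c * (x w - x w * (∏ i ∈ S.erase w, x i)) := by ring
      _ = _ := by rw [h3]
  refine (Finset.abs_sum_le_sum_abs _ _).trans ((Finset.sum_le_sum hterm).trans ?_)
  rw [← Finset.mul_sum, Finset.sum_sub_distrib, Finset.sum_const, nsmul_eq_mul]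
  rw [mul_assoc (ζ * c)]
  have hζ0 : 0 ≤ ζ ∨ S = ∅ := by
    rcases S.eq_empty_or_nonempty with h | ⟨w, hw⟩
    · exact Or.inr h
    · exact Or.inl ((hz0 w w).trans (hζ w w))
  rcases hζ0 with hζ0 | hS
  · refine mul_le_mul_of_nonneg_left ?_ (mul_nonneg hζ0 hc)
    have h5 := one_sub_prod_le h0 h1 S
    rw [Finset.sum_sub_distrib, Finset.sum_const, nsmul_eq_mul] at h5
    nlinarith
  · subst hS
    simp

/-- the drift term -/
lemma drift_bound {x : ι → ℝ} {z : ι → ι → ℝ} {k : ι} (h0 : ∀ i, 0 ≤ x i)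
    (h1 : ∀ i, x i ≤ 1) (hz0 : ∀ t w, 0 ≤ z t w) (hz1 : ∀ t w, z t w ≤ 1) (S : Finset ι) :
    |Esub S (fun t => z t k) (gw x z) - gw x z S| ≤ 1 - ∏ i ∈ S, x i := by
  have h2 : Esub S (fun t => z t k) (gw x z) ≤ 1 := by
    calc Esub S (fun t => z t k) (gw x z) ≤ Esub S (fun t => z t k) (fun _ => 1) :=
          Esub_mono (fun _ _ => hz0 _ _) (fun _ _ => hz1 _ _) fun S' _ => gw_le_one h0 h1 hz0 hz1 S'
      _ = 1 := Esub_one _ _
  have h3 : ∏ i ∈ S, x i ≤ Esub S (fun t => z t k) (gw x z) := by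
    calc ∏ i ∈ S, x i = Esub S (fun t => z t k) (fun _ => ∏ i ∈ S, x i) :=
          (Esub_const _ _ _).symm
      _ ≤ Esub S (fun t => z t k) (gw x z) :=
        Esub_mono (fun _ _ => hz0 _ _) (fun _ _ => hz1 _ _) fun S' hS' =>
          (prod_anti h0 h1 hS').trans (prod_le_gw h0 h1 hz0 hz1 S')
  have h4 := gw_le_one h0 h1 hz0 hz1 S
  have h5 := prod_le_gw h0 h1 hz0 hz1 S
  rw [abs_le]
  constructor <;> linarith

lemma dl_bound_one {x : ι → ℝ} {z : ι → ι → ℝ} {k : ι} (h0 : ∀ i, 0 ≤ x i)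
    (h1 : ∀ i, x i ≤ 1) (hz0 : ∀ t w, 0 ≤ z t w) (hz1 : ∀ t w, z t w ≤ 1) {S : Finset ι}
    (hk : k ∉ S) : |dl x z k S| ≤ 1 / 3 * (1 - ∏ i ∈ S, x i) := by
  induction S using Finset.strongInduction with
  | H S ih =>
    have hpos : (0 : ℝ) < (S.card : ℝ) + 2 := by positivity
    refine le_of_mul_le_mul_left ?_ hpos
    rw [← abs_of_pos hpos, ← abs_mul, abs_of_pos hpos, dl_eq x z hk]
    have h2 := drift_bound (k := k) h0 h1 hz0 hz1 S
    have h3 := sum_step (ζ := 1) (c := 1 / 3) (k := k) h0 h1 hz0 hz1 hz1 (by norm_num)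
      (fun S' hS' => ih S' hS' (fun h => hk (hS'.1 h)))
    refine (abs_add_le _ _).trans ((add_le_add h2 h3).trans (le_of_eq ?_))
    ring

/-- sharper drift bound for at least two opponents -/
lemma drift_bound' {x : ι → ℝ} {z : ι → ι → ℝ} {k : ι} {η : ℝ} (hη0 : 0 ≤ η) (hη : η ≤ 1 / 2)
    (h0 : ∀ i, η ≤ x i) (h1 : ∀ i, x i ≤ 1 - η) (hz0 : ∀ t w, η ≤ z t w)
    (hz1 : ∀ t w, z t w ≤ 1 - η) {S : Finset ι} (hS : 2 ≤ S.card) :
    |Esub S (fun t => z t k) (gw x z) - gw x z S| ≤
      (1 - ∏ i ∈ S, x i) - η ^ 2 * (2 - η) := by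
  have h0' : ∀ i, 0 ≤ x i := fun i => hη0.trans (h0 i)
  have h1' : ∀ i, x i ≤ 1 := fun i => (h1 i).trans (by linarith)
  have hz0' : ∀ t w, 0 ≤ z t w := fun t w => hη0.trans (hz0 t w)
  have hz1' : ∀ t w, z t w ≤ 1 := fun t w => (hz1 t w).trans (by linarith)
  have hne : S.Nonempty := Finset.card_pos.1 (by omega)
  have h2 : Esub S (fun t => z t k) (gw x z) ≤ 1 - η ^ 2 * (2 - η) := by
    have h3 : Esub S (fun t => z t k) (gw x z) ≤
        Esub S (fun t => z t k) (fun S' => (1 - η) + if S' = ∅ then η else 0) := by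
      refine Esub_mono (fun _ _ => hz0' _ _) (fun _ _ => hz1' _ _) fun S' _ => ?_
      by_cases hS' : S' = ∅
      · subst hS'
        rw [gw_empty]
        simp
      · simp only [hS', if_false, add_zero]
        exact gw_le_hi h0' h1 (by linarith) hz0' hz1' (Finset.nonempty_iff_ne_empty.2 hS')
    rw [Esub_add, Esub_const, Esub_ind_empty] at h3
    have h4 : ∏ i ∈ S, (1 - z i k) ≤ (1 - η) ^ 2 := by
      calc ∏ i ∈ S, (1 - z i k) ≤ ∏ _i ∈ S, (1 - η) :=
            Finset.prod_le_prod (fun i _ => sub_nonneg.2 (hz1' i k))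
              (fun i _ => by linarith [hz0 i k])
        _ = (1 - η) ^ S.card := by rw [Finset.prod_const]
        _ ≤ (1 - η) ^ 2 := pow_le_pow_of_le_one (by linarith) (by linarith) hS
    nlinarith
  have h3 : ∏ i ∈ S, x i ≤ Esub S (fun t => z t k) (gw x z) := by
    calc ∏ i ∈ S, x i = Esub S (fun t => z t k) (fun _ => ∏ i ∈ S, x i) :=
          (Esub_const _ _ _).symm
      _ ≤ Esub S (fun t => z t k) (gw x z) :=
        Esub_mono (fun _ _ => hz0' _ _) (fun _ _ => hz1' _ _) fun S' hS' =>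
          (prod_anti h0' h1' hS').trans (prod_le_gw h0' h1' hz0' hz1' S')
  have h4 : gw x z S ≤ 1 - η := gw_le_hi h0' h1 (by linarith) hz0' hz1' hne
  have h5 := prod_le_gw h0' h1' hz0' hz1' S
  rw [abs_le]
  constructor
  · have h6 : η ^ 2 * (2 - η) ≤ η := by nlinarith [mul_nonneg hη0 (sub_nonneg.2 hη), mul_nonneg hη0 hη0]
    linarith
  · linarith

lemma dl_bound_two {x : ι → ℝ} {z : ι → ι → ℝ} {k : ι} {η : ℝ} (hη0 : 0 ≤ η) (hη : η ≤ 1 / 2)
    (hη2 : η ^ 2 - 4 * η + 1 ≤ 0)
    (h0 : ∀ i, η ≤ x i) (h1 : ∀ i, x i ≤ 1 - η) (hz0 : ∀ t w, η ≤ z t w)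
    (hz1 : ∀ t w, z t w ≤ 1 - η) {S : Finset ι}
    (hk : k ∉ S) : |dl x z k S| ≤ (1 - η * (1 - η)) / 3 * (1 - ∏ i ∈ S, x i) := by
  have h0' : ∀ i, 0 ≤ x i := fun i => hη0.trans (h0 i)
  have h1' : ∀ i, x i ≤ 1 := fun i => (h1 i).trans (by linarith)
  have hz0' : ∀ t w, 0 ≤ z t w := fun t w => hη0.trans (hz0 t w)
  have hz1' : ∀ t w, z t w ≤ 1 := fun t w => (hz1 t w).trans (by linarith)
  have hκ : 0 ≤ (1 - η * (1 - η)) / 3 := by nlinarith
  induction S using Finset.strongInduction with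
  | H S ih =>
    have hpos : (0 : ℝ) < (S.card : ℝ) + 2 := by positivity
    refine le_of_mul_le_mul_left ?_ hpos
    rw [← abs_of_pos hpos, ← abs_mul, abs_of_pos hpos, dl_eq x z hk]
    rcases Nat.lt_or_ge S.card 2 with hc | hc
    · interval_cases hcard : S.card
      · rw [Finset.card_eq_zero] at hcard
        subst hcard
        simp [Esub_empty]
      · obtain ⟨w, rfl⟩ := Finset.card_eq_one.1 hcard
        have e1 : Esub {w} (fun t => z t k) (gw x z) = z w k * x w + (1 - z w k) := by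
          have : ({w} : Finset ι) = insert w ∅ := rfl
          rw [this, Esub_insert (Finset.notMem_empty w), Esub_empty, Esub_empty]
          simp only [insert_empty_eq, gw_singleton, gw_empty]
          ring
        rw [e1, gw_singleton]
        simp only [Finset.sum_singleton, Finset.erase_singleton, Esub_empty, dl_empty,
          mul_zero, add_zero, Finset.prod_singleton]
        have e2 : z w k * x w + (1 - z w k) - x w = (1 - z w k) * (1 - x w) := by ring
        rw [e2, abs_of_nonneg (mul_nonneg (sub_nonneg.2 (hz1' _ _)) (sub_nonneg.2 (h1' _)))]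
        have h5 : 1 - z w k ≤ 1 - η * (1 - η) := by
          have := hz0 w k
          nlinarith [sq_nonneg η]
        have h6 : 0 ≤ 1 - x w := sub_nonneg.2 (h1' _)
        push_cast
        nlinarith
    · have h2 := drift_bound' (k := k) hη0 hη h0 h1 hz0 hz1 hc
      have h3 := sum_step (ζ := 1 - η) (c := (1 - η * (1 - η)) / 3) (k := k) h0' h1' hz0' hz1'
        hz1 hκ (fun S' hS' => ih S' hS' (fun h => hk (hS'.1 h)))
      refine (abs_add_le _ _).trans ((add_le_add h2 h3).trans ?_)
      have hc' : (2 : ℝ) ≤ S.card := by exact_mod_cast hc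
      have hp0 : 0 ≤ 1 - ∏ i ∈ S, x i :=
        sub_nonneg.2 (Finset.prod_le_one (fun i _ => h0' i) (fun i _ => h1' i))
      have hp1 : 1 - ∏ i ∈ S, x i ≤ 1 := by
        linarith [Finset.prod_nonneg (s := S) (fun i _ => h0' i)]
      generalize 1 - ∏ i ∈ S, x i = π at hp0 hp1 ⊢
      generalize (S.card : ℝ) = s at hc'
      -- π - τ + (1-η) (κ/3) (s-1) π ≤ (s+2) (κ/3) π
      have h7 : π * (1 - (1 - η * (1 - η)) / 3 * (3 + η * (s - 1))) ≤ η ^ 2 * (2 - η) := by
        have h8 : (1 - η * (1 - η)) / 3 * (3 + η * (s - 1)) ≥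
            (1 - η * (1 - η)) / 3 * (3 + η) := by
          refine mul_le_mul_of_nonneg_left ?_ hκ
          nlinarith
        have h9 : 1 - (1 - η * (1 - η)) / 3 * (3 + η) ≤ η ^ 2 * (2 - η) := by
          have : η * (η ^ 2 - 4 * η + 1) ≤ 0 := mul_nonpos_of_nonneg_of_nonpos hη0 hη2
          nlinarith
        have h10 : 0 ≤ η ^ 2 * (2 - η) := by
          have : 0 ≤ 2 - η := by linarith
          positivity
        have h11 : 1 - (1 - η * (1 - η)) / 3 * (3 + η * (s - 1)) ≤ η ^ 2 * (2 - η) := by linarith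
        rcases le_or_gt (1 - (1 - η * (1 - η)) / 3 * (3 + η * (s - 1))) 0 with hneg | hpos'
        · exact (mul_nonpos_of_nonneg_of_nonpos hp0 hneg).trans h10
        · calc π * (1 - (1 - η * (1 - η)) / 3 * (3 + η * (s - 1)))
              ≤ 1 * (1 - (1 - η * (1 - η)) / 3 * (3 + η * (s - 1))) :=
                mul_le_mul_of_nonneg_right hp1 hpos'.le
            _ ≤ _ := by rw [one_mul]; exact h11
      nlinarith

end Pool.Agent.RKotH
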