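import Mathlib

/-!
# Numerical inequalities
-/

namespace Pool.Agent.RKotH

/-- `G n = ((1-η)^n - η^n) / (1 - 2η)`, as a polynomial in `P = η (1-η)` -/
def Gn (P : ℝ) : ℕ → ℝ
  | 0 => 0
  | 1 => 1
  | (n + 2) => Gn P (n + 1) - P * Gn P n

lemma Gn_eq (η : ℝ) : ∀ n : ℕ, (1 - η) ^ n - η ^ n = (1 - 2 * η) * Gn (η * (1 - η)) n
  | 0 => by simp [Gn]
  | 1 => by simp [Gn]; ring
  | (n + 2) => by
    have h1 := Gn_eq η (n + 1)
    have h2 := Gn_eq η n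
    have e : (1 - η) ^ (n + 2) - η ^ (n + 2) =
        ((1 - η) ^ (n + 1) - η ^ (n + 1)) - η * (1 - η) * ((1 - η) ^ n - η ^ n) := by ring
    rw [e, h1, h2, Gn]
    ring

/-- closed forms as sums: `G` is nonnegative and at most `1` -/
lemma Gn_sum (η : ℝ) : ∀ n : ℕ, Gn (η * (1 - η)) (n + 1) = (1 - η) * Gn (η * (1 - η)) n + η ^ n
  | 0 => by simp [Gn]
  | 1 => by simp [Gn]
  | (n + 2) => by
    have h1 := Gn_sum η (n + 1)
    have e1 : Gn (η * (1 - η)) (n + 2 + 1) =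
        Gn (η * (1 - η)) (n + 1 + 1) - η * (1 - η) * Gn (η * (1 - η)) (n + 1) := rfl
    linear_combination e1 + η * h1

lemma Gn_nonneg {η : ℝ} (h0 : 0 ≤ η) (h1 : η ≤ 1) : ∀ n : ℕ, 0 ≤ Gn (η * (1 - η)) n
  | 0 => by simp [Gn]
  | (n + 1) => by
    rw [Gn_sum]
    have := Gn_nonneg h0 h1 n
    have h2 : 0 ≤ 1 - η := by linarith
    positivity

lemma Gn_anti {η : ℝ} (h0 : 0 ≤ η) (h1 : η ≤ 1) (n : ℕ) :
    Gn (η * (1 - η)) (n + 2) ≤ Gn (η * (1 - η)) (n + 1) := by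
  have h2 := Gn_nonneg h0 h1 n
  have h3 : 0 ≤ η * (1 - η) := mul_nonneg h0 (by linarith)
  have e : Gn (η * (1 - η)) (n + 2) =
    Gn (η * (1 - η)) (n + 1) - η * (1 - η) * Gn (η * (1 - η)) n := rfl
  rw [e]
  nlinarith

lemma Gn_le_one {η : ℝ} (h0 : 0 ≤ η) (h1 : η ≤ 1) : ∀ n : ℕ, Gn (η * (1 - η)) n ≤ 1
  | 0 => by simp [Gn]
  | 1 => by simp [Gn]
  | (n + 2) => (Gn_anti h0 h1 n).trans (Gn_le_one h0 h1 (n + 1))

lemma Gn_le_three {η : ℝ} (h0 : 0 ≤ η) (h1 : η ≤ 1) : ∀ n : ℕ,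
    Gn (η * (1 - η)) (n + 3) ≤ 1 - η * (1 - η)
  | 0 => by simp [Gn]
  | (n + 1) => (Gn_anti h0 h1 (n + 2)).trans (Gn_le_three h0 h1 n)

lemma Gn_le_four {η : ℝ} (h0 : 0 ≤ η) (h1 : η ≤ 1) : ∀ n : ℕ,
    Gn (η * (1 - η)) (n + 4) ≤ 1 - 2 * (η * (1 - η))
  | 0 => by simp [Gn]; ring_nf; rfl
  | (n + 1) => (Gn_anti h0 h1 (n + 3)).trans (Gn_le_four h0 h1 n)

/-- the factor `(1-η)^b η^c` is at most `1-η` as soon as `b + c ≥ 1` -/
lemma fac_le {η : ℝ} (h0 : 0 ≤ η) (h1 : η ≤ 1 / 2) {b c : ℕ} (h : 1 ≤ b + c) :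
    (1 - η) ^ b * η ^ c ≤ 1 - η := by
  have hb : (1 - η) ^ b ≤ 1 := pow_le_one₀ (by linarith) (by linarith)
  have hb0 : 0 ≤ (1 - η) ^ b := pow_nonneg (by linarith) _
  have hc : η ^ c ≤ 1 := pow_le_one₀ h0 (by linarith)
  have hc0 : 0 ≤ η ^ c := pow_nonneg h0 _
  rcases Nat.eq_zero_or_pos b with hb' | hb'
  · have hc' : c ≠ 0 := by omega
    have h2 : η ^ c ≤ η := pow_le_of_le_one h0 (by linarith) hc'
    nlinarith
  · have h2 : (1 - η) ^ b ≤ 1 - η := pow_le_of_le_one (by linarith) (by linarith) (by omega)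
    nlinarith

/-- the case of small bias -/
lemma num_small {η : ℝ} (h0 : 27 / 100 ≤ η) (h1 : η ≤ 1 / 2) {A b c : ℕ} (hA : 1 ≤ A)
    (hm : 2 ≤ A + b + c) :
    3 * ((1 - η) ^ b * η ^ c * Gn (η * (1 - η)) A) ≤
      2 + A * (1 - η * (1 - η)) * ((1 - η * (1 - η)) ^ (A - 1) * (1 - η ^ 2) ^ b *
        (1 - (1 - η) ^ 2) ^ c) + b * (1 - (1 - η) ^ 2) + c * (1 - η ^ 2) := by
  have hη0 : 0 ≤ η := by linarith
  have hη1 : η ≤ 1 := by linarith
  have hP0 : 0 ≤ η * (1 - η) := mul_nonneg hη0 (by linarith)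
  have hP1 : η * (1 - η) ≤ 1 / 4 := by nlinarith [sq_nonneg (η - 1 / 2)]
  have hP2 : 1971 / 10000 ≤ η * (1 - η) := by nlinarith
  have hG0 := Gn_nonneg hη0 hη1 A
  have hG1 := Gn_le_one hη0 hη1 A
  have h1b : (0 : ℝ) ≤ 1 - (1 - η) ^ 2 := by nlinarith
  have h1c : (0 : ℝ) ≤ 1 - η ^ 2 := by nlinarith
  have hκ : (0 : ℝ) ≤ 1 - η * (1 - η) := by linarith
  have hPi : 0 ≤ (A : ℝ) * (1 - η * (1 - η)) * ((1 - η * (1 - η)) ^ (A - 1) * (1 - η ^ 2) ^ b *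
        (1 - (1 - η) ^ 2) ^ c) := by positivity
  have hbn : (0 : ℝ) ≤ b * (1 - (1 - η) ^ 2) := by positivity
  have hcn : (0 : ℝ) ≤ c * (1 - η ^ 2) := by positivity
  have hf0 : 0 ≤ (1 - η) ^ b * η ^ c := by
    have : 0 ≤ 1 - η := by linarith
    positivity
  by_cases hbc : 1 ≤ b + c
  · -- at least one tie
    have hf := fac_le hη0 h1 hbc
    have hbc' : (4671 / 10000 : ℝ) ≤ b * (1 - (1 - η) ^ 2) + c * (1 - η ^ 2) := by
      have h5 : (4671 / 10000 : ℝ) ≤ 1 - (1 - η) ^ 2 := by nlinarith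
      have h6 : (4671 / 10000 : ℝ) ≤ 1 - η ^ 2 := by nlinarith
      have h7 : (1 : ℝ) ≤ b + c := by exact_mod_cast hbc
      have h8 : (0 : ℝ) ≤ b := by positivity
      have h9 : (0 : ℝ) ≤ c := by positivity
      nlinarith
    have h10 : (1 - η) ^ b * η ^ c * Gn (η * (1 - η)) A ≤ (1 - η) * 1 :=
      mul_le_mul hf hG1 hG0 (by linarith)
    nlinarith
  · have hb : b = 0 := by omega
    have hc : c = 0 := by omega
    subst hb hc
    simp only [pow_zero, one_mul, mul_one, Nat.cast_zero, zero_mul, add_zero] at *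
    obtain ⟨A', rfl⟩ : ∃ A', A = A' + 2 := ⟨A - 2, by omega⟩
    rcases A' with _ | A'
    · -- A = 2
      simp [Gn]
      nlinarith
    · rcases A' with _ | A'
      · -- A = 3
        have h5 := Gn_le_three hη0 hη1 0
        simp only [zero_add, Nat.reduceAdd] at h5 ⊢
        push_cast
        have h6 : (3 / 4 : ℝ) ≤ 1 - η * (1 - η) := by linarith
        have h7 : (3 / 4 : ℝ) ^ 2 ≤ (1 - η * (1 - η)) ^ 2 := pow_le_pow_left₀ (by norm_num) h6 2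
        nlinarith
      · -- A ≥ 4
        have h5 := Gn_le_four hη0 hη1 A'
        have e : A' + 1 + 1 + 2 = A' + 4 := rfl
        rw [e] at *
        nlinarith

/-- the case of large bias with few decisive opponents -/
lemma num_large {η : ℝ} (h0 : 0 ≤ η) (h1 : η ≤ 27 / 100) {A b c : ℕ} (hA : 1 ≤ A) (hA5 : A ≤ 5)
    (hm : 2 ≤ A + b + c) :
    3 * ((1 - η) ^ b * η ^ c * Gn (η * (1 - η)) A) + A * (η * (1 - η)) ≤
      2 + A * ((1 - η * (1 - η)) ^ (A - 1) * (1 - η ^ 2) ^ b *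
        (1 - (1 - η) ^ 2) ^ c) + b * (1 - (1 - η) ^ 2) + c * (1 - η ^ 2) := by
  have hη1 : η ≤ 1 := by linarith
  have hP0 : 0 ≤ η * (1 - η) := mul_nonneg h0 (by linarith)
  have hP1 : η * (1 - η) ≤ 1971 / 10000 := by nlinarith
  have hG0 := Gn_nonneg h0 hη1 A
  have hG1 := Gn_le_one h0 hη1 A
  have h1b : (0 : ℝ) ≤ 1 - (1 - η) ^ 2 := by nlinarith
  have h1c : (0 : ℝ) ≤ 1 - η ^ 2 := by nlinarith
  have hκ : (0 : ℝ) ≤ 1 - η * (1 - η) := by linarith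
  have hbn : (0 : ℝ) ≤ b * (1 - (1 - η) ^ 2) := by positivity
  have hcn : (0 : ℝ) ≤ c * (1 - η ^ 2) := by positivity
  have hAr : (A : ℝ) ≤ 5 := by exact_mod_cast hA5
  have hAr0 : (0 : ℝ) ≤ A := by positivity
  have hb1 : (1 - η) ^ b ≤ 1 := pow_le_one₀ (by linarith) (by linarith)
  have hb0 : 0 ≤ (1 - η) ^ b := pow_nonneg (by linarith) _
  rcases Nat.eq_zero_or_pos c with hc | hc
  · subst hc
    simp only [pow_zero, mul_one, Nat.cast_zero, zero_mul, add_zero]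
    have hbern : 1 - (b : ℝ) * η ^ 2 ≤ (1 - η ^ 2) ^ b := by
      have := one_add_mul_le_pow (a := - η ^ 2) (by nlinarith) b
      have e : 1 + - η ^ 2 = 1 - η ^ 2 := by ring
      rw [e] at this
      linarith
    have hbr : (0 : ℝ) ≤ b := by positivity
    generalize hu : (1 - η) ^ b = u at *
    generalize hv : (1 - η ^ 2) ^ b = v at *
    have hP : η * (1 - η) = η - η ^ 2 := by ring
    set P := η * (1 - η) with hPdef
    have hbη : 0 ≤ (b : ℝ) * η := by positivity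
    interval_cases A
    · -- A = 1
      have hb : (1 : ℝ) ≤ b := by
        have : 1 ≤ b := by omega
        exact_mod_cast this
      simp [Gn]
      have : P ≤ (b : ℝ) * P := by nlinarith
      nlinarith
    · simp [Gn]
      have h5 : 2 * ((1 - P) * (1 - (b : ℝ) * η ^ 2)) ≤ 2 * ((1 - P) * v) := by
        nlinarith
      have h6 : 0 ≤ (b : ℝ) * η * (2 - η - 2 * η * (1 - P)) := mul_nonneg hbη (by nlinarith)
      nlinarith
    · simp only [Gn]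
      push_cast
      have h5 : 3 * ((1 - P) ^ 2 * (1 - (b : ℝ) * η ^ 2)) ≤ 3 * ((1 - P) ^ 2 * v) := by
        have : 0 ≤ (1 - P) ^ 2 := sq_nonneg _
        nlinarith
      have h7 : (1 - P) ^ 2 ≤ 1 := pow_le_one₀ hκ (by linarith)
      have h6 : 0 ≤ (b : ℝ) * η * (2 - η - 3 * η * (1 - P) ^ 2) := mul_nonneg hbη (by nlinarith)
      have h8 : (8029 / 10000 : ℝ) ^ 2 ≤ (1 - P) ^ 2 :=
        pow_le_pow_left₀ (by norm_num) (by linarith) 2
      have h9 : 3 * (u * (1 - P * 1)) ≤ 3 * (1 - P) := by nlinarith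
      nlinarith
    · simp only [Gn]
      push_cast
      have h5 : 4 * ((1 - P) ^ 3 * (1 - (b : ℝ) * η ^ 2)) ≤ 4 * ((1 - P) ^ 3 * v) := by
        have : 0 ≤ (1 - P) ^ 3 := pow_nonneg hκ 3
        nlinarith
      have h7 : (1 - P) ^ 3 ≤ 1 := pow_le_one₀ hκ (by linarith)
      have h6 : 0 ≤ (b : ℝ) * η * (2 - η - 4 * η * (1 - P) ^ 3) := mul_nonneg hbη (by nlinarith)
      have h8 : (8029 / 10000 : ℝ) ^ 3 ≤ (1 - P) ^ 3 :=
        pow_le_pow_left₀ (by norm_num) (by linarith) 3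
      have h9 : u * (1 - 2 * P) ≤ 1 - 2 * P := by nlinarith
      nlinarith
    · simp only [Gn]
      push_cast
      have h5 : 5 * ((1 - P) ^ 4 * (1 - (b : ℝ) * η ^ 2)) ≤ 5 * ((1 - P) ^ 4 * v) := by
        have : 0 ≤ (1 - P) ^ 4 := pow_nonneg hκ 4
        nlinarith
      have h7 : (1 - P) ^ 4 ≤ 1 := pow_le_one₀ hκ (by linarith)
      have h6 : 0 ≤ (b : ℝ) * η * (2 - η - 5 * η * (1 - P) ^ 4) := mul_nonneg hbη (by nlinarith)
      have h8 : (8029 / 10000 : ℝ) ^ 4 ≤ (1 - P) ^ 4 :=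
        pow_le_pow_left₀ (by norm_num) (by linarith) 4
      have h10 : 0 ≤ 1 - 3 * P + P ^ 2 := by nlinarith
      have h9 : u * (1 - 3 * P + P ^ 2) ≤ 1 - 3 * P + P ^ 2 := by nlinarith
      nlinarith
  · have hc1 : η ^ c ≤ η := pow_le_of_le_one h0 (by linarith) (by omega)
    have hc0 : 0 ≤ η ^ c := pow_nonneg h0 _
    have hf : (1 - η) ^ b * η ^ c ≤ 27 / 100 := by nlinarith
    have hf0 : 0 ≤ (1 - η) ^ b * η ^ c := mul_nonneg hb0 hc0
    have h10 : (1 - η) ^ b * η ^ c * Gn (η * (1 - η)) A ≤ 27 / 100 * 1 :=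
      mul_le_mul hf hG1 hG0 (by norm_num)
    have hPi : 0 ≤ (A : ℝ) * ((1 - η * (1 - η)) ^ (A - 1) * (1 - η ^ 2) ^ b *
        (1 - (1 - η) ^ 2) ^ c) := by positivity
    have h11 : (A : ℝ) * (η * (1 - η)) ≤ 5 * (1971 / 10000) :=
      mul_le_mul hAr hP1 hP0 (by norm_num)
    nlinarith

/-- the case of large bias with many decisive opponents -/
lemma num_many {η : ℝ} (h0 : 0 ≤ η) (h1 : η ≤ 27 / 100) {A : ℕ} (hA : 6 ≤ A) :
    3 ≤ (1 - 2 * η) * (2 + A * (1 - η * (1 - η))) := by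
  have hAr : (6 : ℝ) ≤ A := by exact_mod_cast hA
  have hκ : (0 : ℝ) ≤ 1 - η * (1 - η) := by nlinarith
  have h2 : 6 * (1 - η * (1 - η)) ≤ A * (1 - η * (1 - η)) := mul_le_mul_of_nonneg_right hAr hκ
  have h3 : (0 : ℝ) ≤ 1 - 2 * η := by linarith
  have h4 : (1 - 2 * η) * (2 + 6 * (1 - η * (1 - η))) ≤
      (1 - 2 * η) * (2 + A * (1 - η * (1 - η))) := mul_le_mul_of_nonneg_left (by linarith) h3
  refine le_trans ?_ h4
  have h5 : (46 / 100 : ℝ) ≤ 1 - 2 * η := by linarith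
  have h6 : (8029 / 10000 : ℝ) ≤ 1 - η * (1 - η) := by nlinarith
  nlinarith

end Pool.Agent.RKotH
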