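import Pool.Agent.RKotH.Tele
import Pool.Agent.RKotH.Num

/-!
# The bound of the source term
-/

namespace Pool.Agent.RKotH

open Finset

variable {ι : Type*}

lemma prod3 (M : Finset ι) (p q : ι → Prop) [DecidablePred p] [DecidablePred q] (F : ι → ℝ)
    (α β γ : ℝ) (h1 : ∀ i ∈ M, p i → F i = α) (h2 : ∀ i ∈ M, ¬ p i → q i → F i = β)
    (h3 : ∀ i ∈ M, ¬ p i → ¬ q i → F i = γ) :
    ∏ i ∈ M, F i = α ^ (M.filter p).card * β ^ ((M.filter fun i => ¬ p i).filter q).card *
      γ ^ ((M.filter fun i => ¬ p i).filter fun i => ¬ q i).card := by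
  rw [← Finset.prod_filter_mul_prod_filter_not M p,
    ← Finset.prod_filter_mul_prod_filter_not (M.filter fun i => ¬ p i) q, mul_assoc]
  congr 1
  · exact Finset.prod_eq_pow_card fun i hi => h1 i (mem_filter.1 hi).1 (mem_filter.1 hi).2
  · congr 1
    · refine Finset.prod_eq_pow_card fun i hi => ?_
      have h := mem_filter.1 hi
      have h' := mem_filter.1 h.1
      exact h2 i h'.1 h'.2 h.2
    · refine Finset.prod_eq_pow_card fun i hi => ?_
      have h := mem_filter.1 hi
      have h' := mem_filter.1 h.1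
      exact h3 i h'.1 h'.2 h.2

lemma sum3 (M : Finset ι) (p q : ι → Prop) [DecidablePred p] [DecidablePred q] (F : ι → ℝ)
    (α β γ : ℝ) (h1 : ∀ i ∈ M, p i → F i = α) (h2 : ∀ i ∈ M, ¬ p i → q i → F i = β)
    (h3 : ∀ i ∈ M, ¬ p i → ¬ q i → F i = γ) :
    ∑ i ∈ M, F i = (M.filter p).card * α + ((M.filter fun i => ¬ p i).filter q).card * β +
      ((M.filter fun i => ¬ p i).filter fun i => ¬ q i).card * γ := by
  rw [← Finset.sum_filter_add_sum_filter_not M p,
    ← Finset.sum_filter_add_sum_filter_not (M.filter fun i => ¬ p i) q, add_assoc]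
  congr 1
  · rw [← nsmul_eq_mul]
    exact Finset.sum_eq_card_nsmul fun i hi => h1 i (mem_filter.1 hi).1 (mem_filter.1 hi).2
  · congr 1
    · rw [← nsmul_eq_mul]
      refine Finset.sum_eq_card_nsmul fun i hi => ?_
      have h := mem_filter.1 hi
      have h' := mem_filter.1 h.1
      exact h2 i h'.1 h'.2 h.2
    · rw [← nsmul_eq_mul]
      refine Finset.sum_eq_card_nsmul fun i hi => ?_
      have h := mem_filter.1 hi
      have h' := mem_filter.1 h.1
      exact h3 i h'.1 h'.2 h.2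

variable [DecidableEq ι]

lemma Qs_le_one {x y : ι → ℝ} {z : ι → ι → ℝ} (hx0 : ∀ i, 0 ≤ x i) (hx1 : ∀ i, x i ≤ 1)
    (hy0 : ∀ i, 0 ≤ y i) (hy1 : ∀ i, y i ≤ 1)
    (hz0 : ∀ t w, 0 ≤ z t w) (hz1 : ∀ t w, z t w ≤ 1) (M : Finset ι) : Qs x y z M ≤ 1 := by
  unfold Qs
  have h1 : Esub M (fun i => 1 - y i) (gw x z) ≤ 1 := by
    calc Esub M (fun i => 1 - y i) (gw x z) ≤ Esub M (fun i => 1 - y i) (fun _ => 1) :=
          Esub_mono (fun i _ => sub_nonneg.2 (hy1 i)) (fun i _ => by linarith [hy0 i])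
            fun S _ => gw_le_one hx0 hx1 hz0 hz1 S
      _ = 1 := Esub_one _ _
  have h2 : 0 ≤ ∏ i ∈ M, y i := Finset.prod_nonneg fun i _ => hy0 i
  have h3 : ∏ i ∈ M, x i ≤ Esub M (fun i => 1 - x i) (gw y z) := by
    calc ∏ i ∈ M, x i = Esub M (fun i => 1 - x i) (fun S => if S = ∅ then 1 else 0) := by
          rw [Esub_ind_empty, one_mul]
          exact Finset.prod_congr rfl fun i _ => by ring
      _ ≤ Esub M (fun i => 1 - x i) (gw y z) := by
          refine Esub_mono (fun i _ => sub_nonneg.2 (hx1 i)) (fun i _ => by linarith [hx0 i])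
            fun S _ => ?_
          by_cases hS : S = ∅
          · subst hS
            simp [gw_empty]
          · simp only [hS, if_false]
            exact gw_nonneg hy0 hy1 hz0 hz1 S
  linarith

/-- the bound at the corners of the box -/
lemma Qs_corner {x y : ι → ℝ} {z : ι → ι → ℝ} {η : ℝ} (hη0 : 0 ≤ η) (hη : η ≤ 1 / 2)
    (hx0 : ∀ i, η ≤ x i) (hx1 : ∀ i, x i ≤ 1 - η) (hy0 : ∀ i, η ≤ y i) (hy1 : ∀ i, y i ≤ 1 - η)
    (hz0 : ∀ t w, η ≤ z t w) (hz1 : ∀ t w, z t w ≤ 1 - η) {M : Finset ι} (hM : 2 ≤ M.card)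
    (hxc : ∀ i ∈ M, x i = η ∨ x i = 1 - η) (hyc : ∀ i ∈ M, y i = η ∨ y i = 1 - η) :
    Qs x y z M ≤ (1 - 2 * η) / 3 * (2 + ∑ i ∈ M, (1 - x i * y i)) := by
  classical
  have hη1 : η ≤ 1 := by linarith
  have hδ : 0 ≤ 1 - 2 * η := by linarith
  have hx0' : ∀ i, 0 ≤ x i := fun i => hη0.trans (hx0 i)
  have hx1' : ∀ i, x i ≤ 1 := fun i => (hx1 i).trans (by linarith)
  have hy0' : ∀ i, 0 ≤ y i := fun i => hη0.trans (hy0 i)
  have hy1' : ∀ i, y i ≤ 1 := fun i => (hy1 i).trans (by linarith)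
  have hz0' : ∀ t w, 0 ≤ z t w := fun t w => hη0.trans (hz0 t w)
  have hz1' : ∀ t w, z t w ≤ 1 := fun t w => (hz1 t w).trans (by linarith)
  set p : ι → Prop := fun i => x i ≠ y i with hp
  set q : ι → Prop := fun i => x i = 1 - η with hq
  set A := (M.filter p).card with hA
  set b := ((M.filter fun i => ¬ p i).filter q).card with hb
  set c := ((M.filter fun i => ¬ p i).filter fun i => ¬ q i).card with hc
  have hABC : A + b + c = M.card := by
    rw [hA, hb, hc, add_assoc, Finset.card_filter_add_card_filter_not,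
      Finset.card_filter_add_card_filter_not]
  have hm : 2 ≤ A + b + c := by omega
  have hP0 : 0 ≤ η * (1 - η) := mul_nonneg hη0 (by linarith)
  have hPpos : 0 < 1 - η * (1 - η) := by nlinarith
  -- the sum
  have hsum : ∑ i ∈ M, (1 - x i * y i) =
      A * (1 - η * (1 - η)) + b * (1 - (1 - η) ^ 2) + c * (1 - η ^ 2) := by
    refine sum3 M p q _ _ _ _ (fun i hi h => ?_) (fun i hi h1 h2 => ?_) (fun i hi h1 h2 => ?_)
    · rcases hxc i hi with h1 | h1 <;> rcases hyc i hi with h2 | h2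
      · exact absurd (h1.trans h2.symm) h
      · rw [h1, h2]
      · rw [h1, h2]
        ring
      · exact absurd (h1.trans h2.symm) h
    · have h3 : x i = y i := not_not.1 h1
      rw [← h3, h2]
      ring
    · have h3 : x i = y i := not_not.1 h1
      have h4 : x i = η := (hxc i hi).resolve_right h2
      rw [← h3, h4]
      ring
  -- the product of the thetas
  have hprod : ∏ i ∈ M, (1 - (1 - x i) * (1 - y i)) =
      (1 - η * (1 - η)) ^ A * (1 - η ^ 2) ^ b * (1 - (1 - η) ^ 2) ^ c := by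
    refine prod3 M p q _ _ _ _ (fun i hi h => ?_) (fun i hi h1 h2 => ?_) (fun i hi h1 h2 => ?_)
    · rcases hxc i hi with h1 | h1 <;> rcases hyc i hi with h2 | h2
      · exact absurd (h1.trans h2.symm) h
      · rw [h1, h2]
        ring
      · rw [h1, h2]
        ring
      · exact absurd (h1.trans h2.symm) h
    · have h3 : x i = y i := not_not.1 h1
      rw [← h3, h2]
      ring
    · have h3 : x i = y i := not_not.1 h1
      have h4 : x i = η := (hxc i hi).resolve_right h2
      rw [← h3, h4]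
      ring
  set Pr := (1 - η * (1 - η)) ^ (A - 1) * (1 - η ^ 2) ^ b * (1 - (1 - η) ^ 2) ^ c with hPr
  have hPr0 : 0 ≤ Pr := by
    have h1 : (0 : ℝ) ≤ 1 - η ^ 2 := by nlinarith
    have h2 : (0 : ℝ) ≤ 1 - (1 - η) ^ 2 := by nlinarith
    have h3 : (0 : ℝ) ≤ 1 - η * (1 - η) := hPpos.le
    positivity
  -- the difference of the products
  have hdiff : ∏ i ∈ M, x i - ∏ i ∈ M, y i ≤
      (1 - 2 * η) * ((1 - η) ^ b * η ^ c * Gn (η * (1 - η)) A) := by
    have h1 : ∏ i ∈ M, max (x i) (y i) = (1 - η) ^ A * (1 - η) ^ b * η ^ c := by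
      refine prod3 M p q _ _ _ _ (fun i hi h => ?_) (fun i hi h1 h2 => ?_) (fun i hi h1 h2 => ?_)
      · rcases hxc i hi with h1 | h1 <;> rcases hyc i hi with h2 | h2
        · exact absurd (h1.trans h2.symm) h
        · rw [h1, h2, max_eq_right (by linarith)]
        · rw [h1, h2, max_eq_left (by linarith)]
        · exact absurd (h1.trans h2.symm) h
      · have h3 : x i = y i := not_not.1 h1
        rw [← h3, h2, max_self]
      · have h3 : x i = y i := not_not.1 h1
        have h4 : x i = η := (hxc i hi).resolve_right h2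
        rw [← h3, h4, max_self]
    have h2 : ∏ i ∈ M, min (x i) (y i) = η ^ A * (1 - η) ^ b * η ^ c := by
      refine prod3 M p q _ _ _ _ (fun i hi h => ?_) (fun i hi h1 h2 => ?_) (fun i hi h1 h2 => ?_)
      · rcases hxc i hi with h1 | h1 <;> rcases hyc i hi with h2 | h2
        · exact absurd (h1.trans h2.symm) h
        · rw [h1, h2, min_eq_left (by linarith)]
        · rw [h1, h2, min_eq_right (by linarith)]
        · exact absurd (h1.trans h2.symm) h
      · have h3 : x i = y i := not_not.1 h1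
        rw [← h3, h2, min_self]
      · have h3 : x i = y i := not_not.1 h1
        have h4 : x i = η := (hxc i hi).resolve_right h2
        rw [← h3, h4, min_self]
    have h3 : ∏ i ∈ M, x i ≤ ∏ i ∈ M, max (x i) (y i) :=
      Finset.prod_le_prod (fun i _ => hx0' i) fun i _ => le_max_left _ _
    have h4 : ∏ i ∈ M, min (x i) (y i) ≤ ∏ i ∈ M, y i :=
      Finset.prod_le_prod (fun i _ => le_min (hx0' i) (hy0' i)) fun i _ => min_le_right _ _
    have h5 := Gn_eq η A
    calc ∏ i ∈ M, x i - ∏ i ∈ M, y i ≤ (1 - η) ^ A * (1 - η) ^ b * η ^ c -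
          η ^ A * (1 - η) ^ b * η ^ c := by linarith
      _ = (1 - η) ^ b * η ^ c * ((1 - η) ^ A - η ^ A) := by ring
      _ = _ := by rw [h5]; ring
  -- the telescoping bound
  have htele : ∀ κ : ℝ, 0 ≤ κ →
      (∀ (x : ι → ℝ) (k : ι) (S : Finset ι), (∀ i, η ≤ x i) → (∀ i, x i ≤ 1 - η) → k ∉ S →
        |dl x z k S| ≤ κ / 3 * (1 - ∏ i ∈ S, x i)) →
      Esub M (fun i => 1 - y i) (gw x z) - Esub M (fun i => 1 - x i) (gw y z) ≤
        A * ((1 - 2 * η) * (κ / 3 * (1 - Pr))) := by
    intro κ _ hκ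
    have h1 := hyb_sum_bound hη0 hη hx0 hx1 hy0 hy1 hκ (M := M) M (Finset.Subset.refl M)
    rw [hyb_empty, hyb_full] at h1
    refine (le_abs_self _).trans (h1.trans (le_of_eq ?_))
    rw [← Finset.sum_filter_add_sum_filter_not M p]
    have h2 : ∑ k ∈ M.filter (fun i => ¬ p i), |x k - y k| *
        (κ / 3 * (1 - ∏ i ∈ M.erase k, (1 - (1 - x i) * (1 - y i)))) = 0 := by
      refine Finset.sum_eq_zero fun k hk => ?_
      have h3 : x k = y k := not_not.1 (mem_filter.1 hk).2
      rw [h3]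
      simp
    rw [h2, add_zero, ← nsmul_eq_mul]
    refine Finset.sum_eq_card_nsmul fun k hk => ?_
    have hkM := (mem_filter.1 hk).1
    have hkp : x k ≠ y k := (mem_filter.1 hk).2
    have hA1 : 1 ≤ A := Finset.card_pos.2 ⟨k, hk⟩
    have habs : |x k - y k| = 1 - 2 * η := by
      rcases hxc k hkM with h3 | h3 <;> rcases hyc k hkM with h4 | h4
      · exact absurd (h3.trans h4.symm) hkp
      · rw [h3, h4, abs_sub_comm, abs_of_nonneg (by linarith)]
        ring
      · rw [h3, h4, abs_of_nonneg (by linarith)]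
        ring
      · exact absurd (h3.trans h4.symm) hkp
    have hθ : 1 - (1 - x k) * (1 - y k) = 1 - η * (1 - η) := by
      rcases hxc k hkM with h3 | h3 <;> rcases hyc k hkM with h4 | h4
      · exact absurd (h3.trans h4.symm) hkp
      · rw [h3, h4]
        ring
      · rw [h3, h4]
        ring
      · exact absurd (h3.trans h4.symm) hkp
    have h5 := Finset.mul_prod_erase M (fun i => 1 - (1 - x i) * (1 - y i)) hkM
    simp only [hθ] at h5
    rw [hprod] at h5
    have h6 : ∏ i ∈ M.erase k, (1 - (1 - x i) * (1 - y i)) = Pr := by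
      apply mul_left_cancel₀ hPpos.ne'
      rw [h5, hPr]
      obtain ⟨A', hA'⟩ : ∃ A', A = A' + 1 := ⟨A - 1, by omega⟩
      rw [hA', Nat.add_sub_cancel]
      ring
    rw [habs, h6]
  have hQ : Qs x y z M = (Esub M (fun i => 1 - y i) (gw x z) -
      Esub M (fun i => 1 - x i) (gw y z)) + (∏ i ∈ M, x i - ∏ i ∈ M, y i) := by
    unfold Qs
    ring
  rw [hsum]
  rcases Nat.eq_zero_or_pos A with hA0 | hApos
  · -- no decisive opponents
    have h1 := htele 1 (by norm_num) fun x k S h0 h1 hk =>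
      dl_bound_one (fun i => hη0.trans (h0 i)) (fun i => (h1 i).trans (by linarith)) hz0' hz1' hk
    have h2 : Gn (η * (1 - η)) 0 = 0 := rfl
    rw [hA0] at h1 hdiff ⊢
    rw [h2] at hdiff
    simp only [Nat.cast_zero, zero_mul, mul_zero, zero_add] at h1 hdiff ⊢
    rw [hQ]
    have h3 : (0 : ℝ) ≤ b * (1 - (1 - η) ^ 2) := mul_nonneg (by positivity) (by nlinarith)
    have h4 : (0 : ℝ) ≤ c * (1 - η ^ 2) := mul_nonneg (by positivity) (by nlinarith)
    have h5 : 0 ≤ (1 - 2 * η) / 3 * (2 + (b * (1 - (1 - η) ^ 2) + c * (1 - η ^ 2))) := by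
      positivity
    linarith
  · rcases le_or_gt (27 / 100) η with hη2 | hη2
    · -- small bias
      have hη3 : η ^ 2 - 4 * η + 1 ≤ 0 := by nlinarith
      have h1 := htele (1 - η * (1 - η)) hPpos.le fun x k S h0 h1 hk =>
        dl_bound_two hη0 hη hη3 h0 h1 hz0 hz1 hk
      have h2 := num_small hη2 hη hApos hm
      rw [hQ]
      have h3 := mul_le_mul_of_nonneg_left h2 (div_nonneg hδ (by norm_num : (0 : ℝ) ≤ 3))
      rw [← hPr] at h3
      calc _ ≤ A * ((1 - 2 * η) * ((1 - η * (1 - η)) / 3 * (1 - Pr))) +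
            (1 - 2 * η) * ((1 - η) ^ b * η ^ c * Gn (η * (1 - η)) A) := add_le_add h1 hdiff
        _ = (1 - 2 * η) / 3 * (3 * ((1 - η) ^ b * η ^ c * Gn (η * (1 - η)) A)) +
            (1 - 2 * η) / 3 * (A * (1 - η * (1 - η)) * (1 - Pr)) := by ring
        _ ≤ (1 - 2 * η) / 3 * (2 + A * (1 - η * (1 - η)) * Pr + b * (1 - (1 - η) ^ 2) +
              c * (1 - η ^ 2)) + (1 - 2 * η) / 3 * (A * (1 - η * (1 - η)) * (1 - Pr)) := by
            linarith
        _ = _ := by ring
    · rcases Nat.lt_or_ge A 6 with hA6 | hA6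
      · have h1 := htele 1 (by norm_num) fun x k S h0 h1 hk =>
          dl_bound_one (fun i => hη0.trans (h0 i)) (fun i => (h1 i).trans (by linarith)) hz0' hz1' hk
        have h2 := num_large hη0 hη2.le hApos (by omega) hm
        rw [hQ]
        have h3 := mul_le_mul_of_nonneg_left h2 (div_nonneg hδ (by norm_num : (0 : ℝ) ≤ 3))
        rw [← hPr] at h3
        calc _ ≤ A * ((1 - 2 * η) * (1 / 3 * (1 - Pr))) +
              (1 - 2 * η) * ((1 - η) ^ b * η ^ c * Gn (η * (1 - η)) A) := add_le_add h1 hdiff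
          _ = (1 - 2 * η) / 3 * (3 * ((1 - η) ^ b * η ^ c * Gn (η * (1 - η)) A) +
                A * (η * (1 - η))) +
              (1 - 2 * η) / 3 * (A * (1 - Pr) - A * (η * (1 - η))) := by ring
          _ ≤ (1 - 2 * η) / 3 * (2 + A * Pr + b * (1 - (1 - η) ^ 2) +
                c * (1 - η ^ 2)) + (1 - 2 * η) / 3 * (A * (1 - Pr) - A * (η * (1 - η))) := by
              linarith
          _ = _ := by ring
      · have h1 := Qs_le_one hx0' hx1' hy0' hy1' hz0' hz1' M
        have h2 := num_many hη0 hη2.le hA6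
        refine h1.trans ?_
        have h3 : (0 : ℝ) ≤ b * (1 - (1 - η) ^ 2) := mul_nonneg (by positivity) (by nlinarith)
        have h4 : (0 : ℝ) ≤ c * (1 - η ^ 2) := mul_nonneg (by positivity) (by nlinarith)
        nlinarith

/-- the bound of the source term -/
theorem Qs_bound {x y : ι → ℝ} {z : ι → ι → ℝ} {η : ℝ} (hη0 : 0 ≤ η) (hη : η ≤ 1 / 2)
    (hx0 : ∀ i, η ≤ x i) (hx1 : ∀ i, x i ≤ 1 - η) (hy0 : ∀ i, η ≤ y i) (hy1 : ∀ i, y i ≤ 1 - η)
    (hz0 : ∀ t w, η ≤ z t w) (hz1 : ∀ t w, z t w ≤ 1 - η) {M : Finset ι} (hM : 2 ≤ M.card) :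
    Qs x y z M ≤ (1 - 2 * η) / 3 * (2 + ∑ i ∈ M, (1 - x i * y i)) := by
  have hlh : η ≤ 1 - η := by linarith
  have hsumu : ∀ (x y : ι → ℝ) (k : ι) (t : ℝ),
      ∑ i ∈ M, (1 - Function.update x k t i * y i) =
        (1 - t) * ∑ i ∈ M, (1 - Function.update x k 0 i * y i) +
          t * ∑ i ∈ M, (1 - Function.update x k 1 i * y i) := by
    intro x y k t
    rw [Finset.mul_sum, Finset.mul_sum, ← Finset.sum_add_distrib]
    refine Finset.sum_congr rfl fun i _ => ?_
    by_cases hik : i = k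
    · subst hik
      simp only [Function.update_self]
      ring
    · simp only [Function.update_of_ne hik]
      ring
  -- first: y at a corner
  have step1 : ∀ y : ι → ℝ, (∀ i, η ≤ y i) → (∀ i, y i ≤ 1 - η) →
      (∀ i ∈ M, y i = η ∨ y i = 1 - η) →
      Qs x y z M - (1 - 2 * η) / 3 * (2 + ∑ i ∈ M, (1 - x i * y i)) ≤ 0 := by
    intro y hy0 hy1 hyc
    refine box_reduce (lo := η) (hi := 1 - η) hlh M
      (fun x => Qs x y z M - (1 - 2 * η) / 3 * (2 + ∑ i ∈ M, (1 - x i * y i)))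
      (fun x k t => ?_) x (fun x' h1 h2 => ?_) x (fun i _ => ⟨hx0 i, hx1 i⟩) (fun i _ => rfl)
    · rw [Qs_update_left, hsumu]
      ring
    · have hx0' : ∀ i, η ≤ x' i := fun i => by
        by_cases hi : i ∈ M
        · rcases h1 i hi with h | h <;> rw [h]
          exact hlh
        · rw [h2 i hi]
          exact hx0 i
      have hx1' : ∀ i, x' i ≤ 1 - η := fun i => by
        by_cases hi : i ∈ M
        · rcases h1 i hi with h | h <;> rw [h]
          exact hlh
        · rw [h2 i hi]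
          exact hx1 i
      have := Qs_corner hη0 hη hx0' hx1' hy0 hy1 hz0 hz1 hM h1 hyc
      linarith
  have step2 : Qs x y z M - (1 - 2 * η) / 3 * (2 + ∑ i ∈ M, (1 - x i * y i)) ≤ 0 := by
    refine box_reduce (lo := η) (hi := 1 - η) hlh M
      (fun y => Qs x y z M - (1 - 2 * η) / 3 * (2 + ∑ i ∈ M, (1 - x i * y i)))
      (fun y k t => ?_) y (fun y' h1 h2 => ?_) y (fun i _ => ⟨hy0 i, hy1 i⟩) (fun i _ => rfl)
    · rw [Qs_update_right]
      have e : ∀ s : ℝ, ∑ i ∈ M, (1 - x i * Function.update y k s i) =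
          ∑ i ∈ M, (1 - Function.update y k s i * x i) := fun s =>
        Finset.sum_congr rfl fun i _ => by ring
      rw [e, e, e, hsumu]
      ring
    · have hy0' : ∀ i, η ≤ y' i := fun i => by
        by_cases hi : i ∈ M
        · rcases h1 i hi with h | h <;> rw [h]
          exact hlh
        · rw [h2 i hi]
          exact hy0 i
      have hy1' : ∀ i, y' i ≤ 1 - η := fun i => by
        by_cases hi : i ∈ M
        · rcases h1 i hi with h | h <;> rw [h]
          exact hlh
        · rw [h2 i hi]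
          exact hy1 i
      exact step1 y' hy0' hy1' h1
  linarith

end Pool.Agent.RKotH
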