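import Pool.Agent.RKotH.Gfun

/-!
# The hybrid argument
-/

namespace Pool.Agent.RKotH

open Finset

variable {ι : Type*} [DecidableEq ι]

/-- the hybrid between `(x, y)` and `(y, x)` -/
noncomputable def hyb (x y : ι → ℝ) (z : ι → ι → ℝ) (M B : Finset ι) : ℝ :=
  Esub M (fun i => 1 - B.piecewise x y i) (gw (B.piecewise y x) z)

lemma hyb_step (x y : ι → ℝ) (z : ι → ι → ℝ) {M B : Finset ι} {k : ι} (hkM : k ∈ M)
    (hkB : k ∉ B) :
    hyb x y z M B - hyb x y z M (insert k B) =
      (x k - y k) * Esub (M.erase k) (fun i => 1 - B.piecewise x y i)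
        (dl (B.piecewise y x) z k) := by
  obtain ⟨M', hM', rfl⟩ : ∃ M', k ∉ M' ∧ insert k M' = M :=
    ⟨M.erase k, Finset.notMem_erase k M, Finset.insert_erase hkM⟩
  rw [Finset.erase_insert hM']
  unfold hyb
  rw [Esub_insert hM', Esub_insert hM']
  set X := B.piecewise y x with hX
  set Y := B.piecewise x y with hY
  have e1 : (insert k B).piecewise x y k = x k := by simp
  have e2 : Y k = y k := by simp [hY, hkB]
  have e3 : X k = x k := by simp [hX, hkB]
  -- replace update
  have e4 : (insert k B).piecewise y x = Function.update X k (y k) := by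
    rw [hX]
    exact Finset.piecewise_insert B y x k
  have e5 : ∀ i ∈ M', (insert k B).piecewise x y i = Y i := by
    intro i hi
    have hik : i ≠ k := by
      rintro rfl
      exact hM' hi
    rw [hY]
    by_cases hiB : i ∈ B
    · simp [hiB, Finset.mem_insert_of_mem hiB]
    · have : i ∉ insert k B := by simp [hik, hiB]
      simp [hiB, this]
  have e6 : X = Function.update X k (x k) := by
    rw [← e3, Function.update_eq_self]
  have hA : ∀ S' ⊆ M', gw X z (insert k S') =
      (1 - x k) * gw (Function.update X k 0) z (insert k S') +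
        x k * gw (Function.update X k 1) z (insert k S') := by
    intro S' _
    conv_lhs => rw [e6]
    exact gw_update X z k (x k) _
  have hB : ∀ S' ⊆ M', gw ((insert k B).piecewise y x) z (insert k S') =
      (1 - y k) * gw (Function.update X k 0) z (insert k S') +
        y k * gw (Function.update X k 1) z (insert k S') := by
    intro S' _
    rw [e4]
    exact gw_update X z k (y k) _
  have hC : ∀ S' ⊆ M', gw ((insert k B).piecewise y x) z S' = gw X z S' := by
    intro S' hS'
    rw [e4]
    refine gw_congr z fun i hi => ?_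
    rw [Function.update_of_ne]
    rintro rfl
    exact hM' (hS' hi)
  have hq : ∀ i ∈ M', 1 - (insert k B).piecewise x y i = 1 - Y i := fun i hi => by rw [e5 i hi]
  have t1 : Esub M' (fun i => 1 - Y i) (fun S => gw X z (insert k S)) =
      (1 - x k) * Esub M' (fun i => 1 - Y i) (fun S => gw (Function.update X k 0) z (insert k S)) +
      x k * Esub M' (fun i => 1 - Y i) (fun S => gw (Function.update X k 1) z (insert k S)) := by
    rw [← Esub_mul, ← Esub_mul, ← Esub_add]
    exact Esub_congr (fun _ _ => rfl) hA
  have t2 : Esub M' (fun i => 1 - (insert k B).piecewise x y i)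
      (fun S => gw ((insert k B).piecewise y x) z (insert k S)) =
      (1 - y k) * Esub M' (fun i => 1 - Y i) (fun S => gw (Function.update X k 0) z (insert k S)) +
      y k * Esub M' (fun i => 1 - Y i) (fun S => gw (Function.update X k 1) z (insert k S)) := by
    rw [← Esub_mul, ← Esub_mul, ← Esub_add]
    exact Esub_congr hq hB
  have t3 : Esub M' (fun i => 1 - (insert k B).piecewise x y i)
      (gw ((insert k B).piecewise y x) z) = Esub M' (fun i => 1 - Y i) (gw X z) :=
    Esub_congr hq hC
  have t4 : Esub M' (fun i => 1 - Y i) (dl X z k) =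
      Esub M' (fun i => 1 - Y i) (fun S => gw (Function.update X k 1) z (insert k S)) -
      Esub M' (fun i => 1 - Y i) (gw X z) := by
    rw [← Esub_sub]
    rfl
  rw [t1, t2, t3, t4, e1, e2]
  ring

/-- the basic bound for one step of the hybrid argument -/
lemma hyb_step_bound {x y : ι → ℝ} {z : ι → ι → ℝ} {η κ : ℝ} (hη0 : 0 ≤ η) (hη : η ≤ 1 / 2)
    (hx0 : ∀ i, η ≤ x i) (hx1 : ∀ i, x i ≤ 1 - η) (hy0 : ∀ i, η ≤ y i) (hy1 : ∀ i, y i ≤ 1 - η)
    (hκ : ∀ (x : ι → ℝ) (k : ι) (S : Finset ι), (∀ i, η ≤ x i) → (∀ i, x i ≤ 1 - η) → k ∉ S →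
      |dl x z k S| ≤ κ / 3 * (1 - ∏ i ∈ S, x i))
    {M B : Finset ι} {k : ι} (hkM : k ∈ M) (hkB : k ∉ B) :
    |hyb x y z M B - hyb x y z M (insert k B)| ≤
      |x k - y k| * (κ / 3 * (1 - ∏ i ∈ M.erase k, (1 - (1 - x i) * (1 - y i)))) := by
  rw [hyb_step x y z hkM hkB, abs_mul]
  refine mul_le_mul_of_nonneg_left ?_ (abs_nonneg _)
  set X := B.piecewise y x with hX
  set Y := B.piecewise x y with hY
  have hX0 : ∀ i, η ≤ X i := fun i => by
    by_cases hi : i ∈ B <;> simp [hX, hi, hx0, hy0]
  have hX1 : ∀ i, X i ≤ 1 - η := fun i => by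
    by_cases hi : i ∈ B
    · simpa [hX, hi] using hy1 i
    · simpa [hX, hi] using hx1 i
  have hY0 : ∀ i, η ≤ Y i := fun i => by
    by_cases hi : i ∈ B <;> simp [hY, hi, hx0, hy0]
  have hY1 : ∀ i, Y i ≤ 1 - η := fun i => by
    by_cases hi : i ∈ B
    · simpa [hY, hi] using hx1 i
    · simpa [hY, hi] using hy1 i
  calc |Esub (M.erase k) (fun i => 1 - Y i) (dl X z k)|
      ≤ Esub (M.erase k) (fun i => 1 - Y i) (fun S => κ / 3 * (1 - ∏ i ∈ S, X i)) := by
        refine Esub_abs_le (fun i _ => ?_) (fun i _ => ?_) fun S hS => ?_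
        · linarith [hY1 i]
        · linarith [hY0 i]
        · exact hκ X k S hX0 hX1 fun h => Finset.notMem_erase k M (hS h)
    _ = κ / 3 * (1 - ∏ i ∈ M.erase k, (1 - (1 - x i) * (1 - y i))) := by
        rw [Esub_mul, Esub_sub, Esub_one, Esub_prod]
        congr 2
        refine Finset.prod_congr rfl fun i _ => ?_
        by_cases hi : i ∈ B
        · simp only [hX, hY, hi, Finset.piecewise_eq_of_mem]
          ring
        · simp only [hX, hY, hi, not_false_eq_true, Finset.piecewise_eq_of_notMem]
          ring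

lemma hyb_sum_bound {x y : ι → ℝ} {z : ι → ι → ℝ} {η κ : ℝ} (hη0 : 0 ≤ η) (hη : η ≤ 1 / 2)
    (hx0 : ∀ i, η ≤ x i) (hx1 : ∀ i, x i ≤ 1 - η) (hy0 : ∀ i, η ≤ y i) (hy1 : ∀ i, y i ≤ 1 - η)
    (hκ : ∀ (x : ι → ℝ) (k : ι) (S : Finset ι), (∀ i, η ≤ x i) → (∀ i, x i ≤ 1 - η) → k ∉ S →
      |dl x z k S| ≤ κ / 3 * (1 - ∏ i ∈ S, x i))
    {M : Finset ι} (B : Finset ι) (hB : B ⊆ M) :
    |hyb x y z M ∅ - hyb x y z M B| ≤
      ∑ k ∈ B, |x k - y k| * (κ / 3 * (1 - ∏ i ∈ M.erase k, (1 - (1 - x i) * (1 - y i)))) := by
  induction B using Finset.induction_on with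
  | empty => simp
  | insert a B ha ih =>
    rw [Finset.sum_insert ha]
    have h1 := ih ((Finset.subset_insert a B).trans hB)
    have h2 := hyb_step_bound hη0 hη hx0 hx1 hy0 hy1 hκ (M := M) (B := B) (k := a)
      (hB (Finset.mem_insert_self a B)) ha
    calc |hyb x y z M ∅ - hyb x y z M (insert a B)|
        = |(hyb x y z M B - hyb x y z M (insert a B)) + (hyb x y z M ∅ - hyb x y z M B)| := by
          congr 1
          ring
      _ ≤ _ := (abs_add_le _ _).trans (add_le_add h2 h1)

lemma hyb_empty (x y : ι → ℝ) (z : ι → ι → ℝ) (M : Finset ι) :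
    hyb x y z M ∅ = Esub M (fun i => 1 - y i) (gw x z) := by
  simp [hyb]

lemma hyb_full (x y : ι → ℝ) (z : ι → ι → ℝ) (M : Finset ι) :
    hyb x y z M M = Esub M (fun i => 1 - x i) (gw y z) := by
  unfold hyb
  refine Esub_congr (fun i hi => by simp [hi]) fun S hS => ?_
  exact gw_congr z fun i hi => by simp [hS hi]

/-- the source term of the recursion for the manipulation gain -/
noncomputable def Qs (x y : ι → ℝ) (z : ι → ι → ℝ) (M : Finset ι) : ℝ :=
  Esub M (fun i => 1 - y i) (gw x z) - ∏ i ∈ M, y i -
    (Esub M (fun i => 1 - x i) (gw y z) - ∏ i ∈ M, x i)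

lemma Qs_swap (x y : ι → ℝ) (z : ι → ι → ℝ) (M : Finset ι) : Qs y x z M = - Qs x y z M := by
  unfold Qs
  ring

lemma prod_update (M : Finset ι) (x : ι → ℝ) (k : ι) (t : ℝ) :
    ∏ i ∈ M, Function.update x k t i =
      (1 - t) * ∏ i ∈ M, Function.update x k 0 i + t * ∏ i ∈ M, Function.update x k 1 i := by
  by_cases hk : k ∈ M
  · rw [← Finset.mul_prod_erase _ _ hk, ← Finset.mul_prod_erase _ _ hk,
      ← Finset.mul_prod_erase _ _ hk]
    have key : ∀ s : ℝ, ∏ i ∈ M.erase k, Function.update x k s i = ∏ i ∈ M.erase k, x i := by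
      intro s
      refine Finset.prod_congr rfl fun i hi => ?_
      rw [Function.update_of_ne (Finset.ne_of_mem_erase hi)]
    simp only [key, Function.update_self]
    ring
  · have key : ∀ s : ℝ, ∏ i ∈ M, Function.update x k s i = ∏ i ∈ M, x i := by
      intro s
      refine Finset.prod_congr rfl fun i hi => ?_
      rw [Function.update_of_ne]
      rintro rfl
      exact hk hi
    simp only [key]
    ring

lemma Esub_one_sub_update (M : Finset ι) (y : ι → ℝ) (f : Finset ι → ℝ) (k : ι) (t : ℝ) :
    Esub M (fun i => 1 - Function.update y k t i) f =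
      (1 - t) * Esub M (fun i => 1 - Function.update y k 0 i) f +
        t * Esub M (fun i => 1 - Function.update y k 1 i) f := by
  have e : ∀ s : ℝ, (fun i => 1 - Function.update y k s i) =
      Function.update (fun i => 1 - y i) k (1 - s) := by
    intro s
    funext i
    by_cases hi : i = k
    · subst hi
      simp
    · simp [Function.update_of_ne hi]
  rw [e, e, e, Esub_update _ _ (1 - t)]
  simp only [sub_zero, sub_self, sub_sub_cancel]
  ring

lemma Qs_update_left (x y : ι → ℝ) (z : ι → ι → ℝ) (M : Finset ι) (k : ι) (t : ℝ) :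
    Qs (Function.update x k t) y z M =
      (1 - t) * Qs (Function.update x k 0) y z M + t * Qs (Function.update x k 1) y z M := by
  unfold Qs
  rw [prod_update, Esub_one_sub_update]
  have : Esub M (fun i => 1 - y i) (gw (Function.update x k t) z) =
      (1 - t) * Esub M (fun i => 1 - y i) (gw (Function.update x k 0) z) +
      t * Esub M (fun i => 1 - y i) (gw (Function.update x k 1) z) := by
    rw [← Esub_mul, ← Esub_mul, ← Esub_add]
    exact Esub_congr (fun _ _ => rfl) fun S _ => gw_update x z k t S
  rw [this]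
  ring

lemma Qs_update_right (x y : ι → ℝ) (z : ι → ι → ℝ) (M : Finset ι) (k : ι) (t : ℝ) :
    Qs x (Function.update y k t) z M =
      (1 - t) * Qs x (Function.update y k 0) z M + t * Qs x (Function.update y k 1) z M := by
  rw [← neg_neg (Qs x (Function.update y k t) z M), ← Qs_swap, Qs_update_left,
    Qs_swap x, Qs_swap x]
  ring

/-- a function which is affine in every coordinate is bounded on a box by its values at the
corners -/
lemma box_reduce {lo hi : ℝ} (hlh : lo ≤ hi) (M : Finset ι) (Φ : (ι → ℝ) → ℝ)
    (haff : ∀ x k t, Φ (Function.update x k t) =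
      (1 - t) * Φ (Function.update x k 0) + t * Φ (Function.update x k 1))
    (x₀ : ι → ℝ)
    (hcorner : ∀ x, (∀ i ∈ M, x i = lo ∨ x i = hi) → (∀ i, i ∉ M → x i = x₀ i) → Φ x ≤ 0) :
    ∀ x, (∀ i ∈ M, lo ≤ x i ∧ x i ≤ hi) → (∀ i, i ∉ M → x i = x₀ i) → Φ x ≤ 0 := by
  have key : ∀ s : Finset ι, s ⊆ M → ∀ x, (∀ i ∈ M, lo ≤ x i ∧ x i ≤ hi) →
      (∀ i ∈ M, i ∉ s → x i = lo ∨ x i = hi) → (∀ i, i ∉ M → x i = x₀ i) → Φ x ≤ 0 := by
    intro s
    induction s using Finset.induction_on with
    | empty =>
      intro _ x _ h2 h3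
      exact hcorner x (fun i hi => h2 i hi (Finset.notMem_empty i)) h3
    | insert a s ha ih =>
      intro hs x h1 h2 h3
      have haM : a ∈ M := hs (Finset.mem_insert_self a s)
      have hs' : s ⊆ M := (Finset.subset_insert a s).trans hs
      rcases eq_or_lt_of_le hlh with heq | hlt
      · refine ih hs' x h1 (fun i hi his => ?_) h3
        left
        have := h1 i hi
        linarith [this.1, this.2]
      · have hA : ∀ c, (c = lo ∨ c = hi) → Φ (Function.update x a c) ≤ 0 := by
          intro c hc
          refine ih hs' _ (fun i hi => ?_) (fun i hi his => ?_) (fun i hi => ?_)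
          · by_cases hia : i = a
            · subst hia
              rw [Function.update_self]
              rcases hc with rfl | rfl
              · exact ⟨le_refl _, hlh⟩
              · exact ⟨hlh, le_refl _⟩
            · rw [Function.update_of_ne hia]
              exact h1 i hi
          · by_cases hia : i = a
            · subst hia
              rw [Function.update_self]
              exact hc
            · rw [Function.update_of_ne hia]
              exact h2 i hi (by simp [hia, his])
          · have hia : i ≠ a := by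
              rintro rfl
              exact hi haM
            rw [Function.update_of_ne hia]
            exact h3 i hi
        have hlo := hA lo (Or.inl rfl)
        have hhi := hA hi (Or.inr rfl)
        rw [haff] at hlo hhi
        have hx : Φ x = (1 - x a) * Φ (Function.update x a 0) + x a * Φ (Function.update x a 1) := by
          conv_lhs => rw [← Function.update_eq_self a x]
          exact haff x a (x a)
        rw [hx]
        obtain ⟨h4, h5⟩ := h1 a haM
        generalize Φ (Function.update x a 0) = A at *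
        generalize Φ (Function.update x a 1) = B at *
        have h6 : 0 < hi - lo := sub_pos.2 hlt
        have h7 : (hi - lo) * ((1 - x a) * A + x a * B) =
            (hi - x a) * ((1 - lo) * A + lo * B) + (x a - lo) * ((1 - hi) * A + hi * B) := by ring
        have h8 : (hi - lo) * ((1 - x a) * A + x a * B) ≤ 0 := by
          rw [h7]
          have := mul_nonpos_of_nonneg_of_nonpos (sub_nonneg.2 h5) hlo
          have := mul_nonpos_of_nonneg_of_nonpos (sub_nonneg.2 h4) hhi
          linarith
        by_contra hcon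
        push Not at hcon
        have := mul_pos h6 hcon
        linarith
  intro x h1 h3
  exact key M (Finset.Subset.refl M) x h1 (fun i hi his => absurd hi his) h3

end Pool.Agent.RKotH
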